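import Pool.Agent.L7h38.PD.Stm

set_option autoImplicit false

/-!
# Project PD: `S_OM → S_BALL`
-/

open MeasureTheory Set Filter Topology
open scoped ENNReal

namespace Pool.Agent.L7h26.PD

open Pool.Agent.L7h38.PD

/-- Iterating the one step bound. -/
theorem om_iter {κ : ℝ} (hOM : S_OM) (hκ : 0 ≤ κ) {S r : ℝ} (hS : 0 < S) (hr : 0 < r) :
    ∀ N : ℕ, Om κ (S + r ^ 2) ≤
      (∑ l ∈ Finset.range N, 3 * ((2 ^ l * r) ^ 2 * vpi κ (S + (2 ^ l * r) ^ 2))) +
        Om κ (S + (2 ^ N * r) ^ 2) := by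
  intro N
  induction N with
  | zero => simp
  | succ N ih =>
    refine ih.trans ?_
    rw [Finset.sum_range_succ]
    have h1 : 0 < S + (2 ^ N * r) ^ 2 := by positivity
    have h2 : S + (2 ^ N * r) ^ 2 ≤ S + (2 ^ (N + 1) * r) ^ 2 := by
      have e : (2 ^ (N + 1) * r) ^ 2 = 4 * (2 ^ N * r) ^ 2 := by
        rw [pow_succ]
        ring
      nlinarith [sq_nonneg (2 ^ N * r)]
    have h3 := ((hOM κ hκ).2.1 _ _ h1 h2).2.2
    have h4 : S + (2 ^ (N + 1) * r) ^ 2 - (S + (2 ^ N * r) ^ 2) = 3 * (2 ^ N * r) ^ 2 := by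
      rw [pow_succ]
      ring
    rw [h4] at h3
    linarith

/-- The weight on the ball of radius `2`. -/
noncomputable def gw (κ S : ℝ) {m : ℕ} (z : E m) : ℝ≥0∞ :=
  (Metric.ball (0 : E m) 2).indicator (fun z => ENNReal.ofReal (‖z‖ ^ 2 * vpi κ (S + ‖z‖ ^ 2))) z

theorem gw_meas (κ S : ℝ) (m : ℕ) : Measurable (gw κ S (m := m)) := by
  unfold gw
  refine Measurable.indicator ?_ measurableSet_ball
  have h : Measurable (fun z : E m => ‖z‖ ^ 2) := measurable_norm.pow_const 2
  refine (h.mul ?_).ennreal_ofReal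
  unfold vpi
  exact ((measurable_const.add h).pow_const _).mul
    (((measurable_const.add h).neg.div_const 2).exp)

theorem gw_le (κ S : ℝ) {m : ℕ} (z : E m) :
    gw κ S z ≤ ENNReal.ofReal (‖z‖ ^ 2 * vpi κ (S + ‖z‖ ^ 2)) :=
  indicator_le_self _ _ z

theorem gw_eq (κ S : ℝ) {m : ℕ} {z : E m} (hz : ‖z‖ < 2) :
    gw κ S z = ENNReal.ofReal (‖z‖ ^ 2 * vpi κ (S + ‖z‖ ^ 2)) :=
  indicator_of_mem (by simpa using hz) _

theorem gw_neg (κ S : ℝ) {m : ℕ} (z : E m) : gw κ S (-z) = gw κ S z := by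
  unfold gw indicator
  simp

/-- The pointwise bound. -/
theorem om_pt {κ : ℝ} (hOM : S_OM) (hκ : 0 ≤ κ) {S : ℝ} (hS : 0 < S) {m : ℕ} {z : E m}
    (hz : z ≠ 0) :
    ENNReal.ofReal (Om κ (S + ‖z‖ ^ 2)) ≤
      2 * ENNReal.ofReal (‖z‖ ^ 2 * vpi κ (S + ‖z‖ ^ 2)) +
        3 * ∑' l : ℕ, gw κ S (((2 : ℝ) ^ l) • z) := by
  have hr : 0 < ‖z‖ := norm_pos_iff.2 hz
  have hex : ∃ N : ℕ, 1 ≤ (2 : ℝ) ^ N * ‖z‖ := by
    obtain ⟨N, hN⟩ := pow_unbounded_of_one_lt (‖z‖⁻¹) (by norm_num : (1 : ℝ) < 2)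
    refine ⟨N, ?_⟩
    have h1 : ‖z‖⁻¹ * ‖z‖ = 1 := inv_mul_cancel₀ hr.ne'
    nlinarith
  classical
  obtain ⟨N, hN, hmin⟩ : ∃ N : ℕ, 1 ≤ (2 : ℝ) ^ N * ‖z‖ ∧ ∀ l < N, (2 : ℝ) ^ l * ‖z‖ < 1 :=
    ⟨Nat.find hex, Nat.find_spec hex, fun l hl => not_le.1 (Nat.find_min hex hl)⟩
  have hv : ∀ T : ℝ, 0 < T → 0 < vpi κ T := fun T hT => ((hOM κ hκ).1 T hT).1
  have hlast : Om κ (S + (2 ^ N * ‖z‖) ^ 2) ≤
      2 * ((2 ^ N * ‖z‖) ^ 2 * vpi κ (S + (2 ^ N * ‖z‖) ^ 2)) := by
    have h1 := ((hOM κ hκ).1 (S + (2 ^ N * ‖z‖) ^ 2) (by positivity)).2.2.2.2.2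
    have h2 := hv (S + (2 ^ N * ‖z‖) ^ 2) (by positivity)
    have h3 : 1 ≤ (2 ^ N * ‖z‖) ^ 2 := one_le_pow₀ hN
    nlinarith
  rcases Nat.eq_zero_or_pos N with h0 | h0
  · subst h0
    simp only [pow_zero, one_mul] at hlast
    refine le_trans (ENNReal.ofReal_le_ofReal hlast) ?_
    rw [ENNReal.ofReal_mul (by norm_num)]
    simp
  · refine le_trans ?_ (le_add_left le_rfl)
    have hb : ∀ l ∈ Finset.range (N + 1), (2 : ℝ) ^ l * ‖z‖ < 2 := by
      intro l hl
      rcases (Nat.lt_succ_iff.1 (Finset.mem_range.1 hl)).lt_or_eq with h | h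
      · linarith [hmin l h]
      · subst h
        have := hmin (l - 1) (by omega)
        have h5 : (2 : ℝ) ^ l = 2 * 2 ^ (l - 1) := by
          rw [← pow_succ', Nat.sub_add_cancel h0]
        rw [h5]
        linarith
    have hsum : Om κ (S + ‖z‖ ^ 2) ≤ 3 * ∑ l ∈ Finset.range (N + 1),
        ((2 ^ l * ‖z‖) ^ 2 * vpi κ (S + (2 ^ l * ‖z‖) ^ 2)) := by
      have h1 := om_iter hOM hκ hS hr N
      rw [← Finset.mul_sum] at h1
      rw [Finset.sum_range_succ, mul_add]
      have h2 : 0 ≤ (2 ^ N * ‖z‖) ^ 2 * vpi κ (S + (2 ^ N * ‖z‖) ^ 2) :=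
        mul_nonneg (by positivity) (hv _ (by positivity)).le
      linarith
    calc ENNReal.ofReal (Om κ (S + ‖z‖ ^ 2))
        ≤ ENNReal.ofReal (3 * ∑ l ∈ Finset.range (N + 1),
            ((2 ^ l * ‖z‖) ^ 2 * vpi κ (S + (2 ^ l * ‖z‖) ^ 2))) := ENNReal.ofReal_le_ofReal hsum
      _ = 3 * ∑ l ∈ Finset.range (N + 1), gw κ S (((2 : ℝ) ^ l) • z) := by
          rw [ENNReal.ofReal_mul (by norm_num), ENNReal.ofReal_sum_of_nonneg]
          · congr 1
            · norm_num
            · refine Finset.sum_congr rfl fun l hl => ?_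
              have hn : ‖((2 : ℝ) ^ l) • z‖ = 2 ^ l * ‖z‖ := by
                rw [norm_smul, Real.norm_eq_abs, abs_of_pos (by positivity)]
              rw [gw_eq κ S (by rw [hn]; exact hb l hl), hn]
          · intro l _
            exact mul_nonneg (by positivity) (hv _ (by positivity)).le
      _ ≤ _ := by
          gcongr
          exact ENNReal.sum_le_tsum _

/-- Scaling. -/
theorem lint_smul {m : ℕ} {r : ℝ} (hr : 0 < r) {f : E m → ℝ≥0∞} (hf : Measurable f) :
    ∫⁻ z : E m, f (r • z) = ENNReal.ofReal ((r ^ m)⁻¹) * ∫⁻ z : E m, f z := by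
  have h1 := Measure.map_addHaar_smul (volume : Measure (E m)) hr.ne'
  rw [finrank_euclideanSpace_fin] at h1
  have h2 : ∫⁻ z : E m, f (r • z) = ∫⁻ z, f z ∂(Measure.map (fun z : E m => r • z) volume) :=
    (lintegral_map hf (measurable_const_smul r)).symm
  rw [h2, h1, lintegral_smul_measure, abs_of_pos (by positivity), smul_eq_mul]

/-- **S_BALL.** -/
theorem s_BALL (hOM : S_OM) : S_BALL := by
  intro m κ c hm hκ hc
  refine ⟨2 + 6 * Real.exp (4 * c), by positivity, fun S hS H hH hcosh => ?_⟩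
  have hne : ∀ᵐ z : E m, z ≠ 0 := by
    have : Nonempty (Fin m) := ⟨⟨0, hm⟩⟩
    rw [ae_iff]
    simp
  set W : E m → ℝ≥0∞ := fun z => ENNReal.ofReal (‖z‖ ^ 2 * vpi κ (S + ‖z‖ ^ 2)) with hW
  have hWm : Measurable W := by
    have h : Measurable (fun z : E m => ‖z‖ ^ 2) := measurable_norm.pow_const 2
    refine (h.mul ?_).ennreal_ofReal
    unfold vpi
    exact ((measurable_const.add h).pow_const _).mul
      (((measurable_const.add h).neg.div_const 2).exp)
  have hg := gw_meas κ S m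
  set I : ℝ≥0∞ := ∫⁻ z : E m, W z * H z with hI
  -- one dyadic piece
  have hpiece : ∀ l : ℕ, ∫⁻ z : E m, gw κ S (((2 : ℝ) ^ l) • z) * H z ≤
      (2⁻¹ : ℝ≥0∞) ^ l * (ENNReal.ofReal (Real.exp (4 * c)) * I) := by
    intro l
    set t : ℝ := ((2 : ℝ) ^ l)⁻¹ with ht
    have ht0 : 0 < t := by positivity
    have ht1 : t ≤ 1 := inv_le_one_of_one_le₀ (one_le_pow₀ (by norm_num))
    have h2l : (0 : ℝ) < 2 ^ l := by positivity
    have hHt : Measurable (fun z : E m => H (t • z)) := hH.comp (measurable_const_smul t)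
    have m1 : Measurable (fun z : E m => gw κ S z * H (t • z)) := hg.mul hHt
    have m2 : Measurable (fun z : E m => gw κ S z * H z) := hg.mul hH
    have m3 : Measurable (fun z : E m => gw κ S z * (H z + H (-z))) :=
      hg.mul (hH.add (hH.comp measurable_neg))
    have h1 : ∫⁻ z : E m, gw κ S (((2 : ℝ) ^ l) • z) * H z =
        ENNReal.ofReal ((((2 : ℝ) ^ l) ^ m)⁻¹) * ∫⁻ z : E m, gw κ S z * H (t • z) := by
      rw [← lint_smul h2l (f := fun z => gw κ S z * H (t • z)) m1]
      refine lintegral_congr fun z => ?_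
      rw [smul_smul, ht, inv_mul_cancel₀ h2l.ne', one_smul]
    -- symmetrisation
    have h2 : ∫⁻ z : E m, gw κ S z * H (t • z) = ∫⁻ z : E m, gw κ S z * H (-(t • z)) := by
      rw [← lintegral_neg_eq_self (fun z => gw κ S z * H (t • z))]
      refine lintegral_congr fun z => ?_
      rw [gw_neg, smul_neg]
    have h3 : ∫⁻ z : E m, gw κ S z * H z = ∫⁻ z : E m, gw κ S z * H (-z) := by
      rw [← lintegral_neg_eq_self (fun z => gw κ S z * H z)]
      refine lintegral_congr fun z => ?_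
      rw [gw_neg]
    have h4 : ∫⁻ z : E m, gw κ S z * H (t • z) ≤ ENNReal.ofReal (Real.exp (4 * c)) *
        ∫⁻ z : E m, gw κ S z * H z := by
      have h5 : 2 * ∫⁻ z : E m, gw κ S z * H (t • z) ≤
          2 * (ENNReal.ofReal (Real.exp (4 * c)) * ∫⁻ z : E m, gw κ S z * H z) := by
        calc 2 * ∫⁻ z : E m, gw κ S z * H (t • z)
            = ∫⁻ z : E m, gw κ S z * (H (t • z) + H (-(t • z))) := by
              rw [two_mul]
              nth_rewrite 2 [h2]
              rw [← lintegral_add_left m1]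
              refine lintegral_congr fun z => ?_
              rw [mul_add]
          _ ≤ ∫⁻ z : E m, ENNReal.ofReal (Real.exp (4 * c)) *
                (gw κ S z * (H z + H (-z))) := by
              refine lintegral_mono fun z => ?_
              show gw κ S z * (H (t • z) + H (-(t • z))) ≤ ENNReal.ofReal (Real.exp (4 * c)) *
                (gw κ S z * (H z + H (-z)))
              by_cases hz : ‖z‖ < 2
              · have h6 := hcosh t z ht0.le ht1
                have h7 : ENNReal.ofReal (Real.exp (c * ‖z‖ ^ 2)) ≤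
                    ENNReal.ofReal (Real.exp (4 * c)) := by
                  refine ENNReal.ofReal_le_ofReal (Real.exp_le_exp.2 ?_)
                  have h8 : ‖z‖ ^ 2 ≤ 4 := by nlinarith [norm_nonneg z]
                  nlinarith
                calc gw κ S z * (H (t • z) + H (-(t • z)))
                    ≤ gw κ S z * (ENNReal.ofReal (Real.exp (4 * c)) * (H z + H (-z))) := by
                      gcongr
                      exact h6.trans (by gcongr)
                  _ = _ := by ring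
              · have : gw κ S z = 0 := indicator_of_notMem (by simpa using hz) _
                rw [this]
                simp
          _ = 2 * (ENNReal.ofReal (Real.exp (4 * c)) * ∫⁻ z : E m, gw κ S z * H z) := by
              rw [lintegral_const_mul _ m3]
              have h9 : ∫⁻ z : E m, gw κ S z * (H z + H (-z)) =
                  2 * ∫⁻ z : E m, gw κ S z * H z := by
                rw [two_mul]
                nth_rewrite 2 [h3]
                rw [← lintegral_add_left m2]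
                refine lintegral_congr fun z => ?_
                rw [mul_add]
              rw [h9]
              ring
      exact (ENNReal.mul_le_mul_iff_right (by norm_num) (by norm_num)).1 h5
    rw [h1]
    have h10 : ENNReal.ofReal ((((2 : ℝ) ^ l) ^ m)⁻¹) ≤ (2⁻¹ : ℝ≥0∞) ^ l := by
      have h11 : (((2 : ℝ) ^ l) ^ m)⁻¹ ≤ (2⁻¹ : ℝ) ^ l := by
        rw [inv_pow]
        refine inv_anti₀ h2l ?_
        calc (2 : ℝ) ^ l = ((2 : ℝ) ^ l) ^ 1 := (pow_one _).symm
          _ ≤ ((2 : ℝ) ^ l) ^ m := pow_le_pow_right₀ (one_le_pow₀ (by norm_num)) hm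
      refine (ENNReal.ofReal_le_ofReal h11).trans (le_of_eq ?_)
      rw [ENNReal.ofReal_pow (by norm_num), ENNReal.ofReal_inv_of_pos (by norm_num)]
      norm_num
    have h12 : ∫⁻ z : E m, gw κ S z * H z ≤ I := by
      refine lintegral_mono fun z => ?_
      exact mul_le_mul_left (gw_le κ S z) _
    gcongr
    exact h4.trans (by gcongr)
  calc ∫⁻ z : E m, ENNReal.ofReal (Om κ (S + ‖z‖ ^ 2)) * H z
      ≤ ∫⁻ z : E m, (2 * (W z * H z) + 3 * ∑' l : ℕ, (gw κ S (((2 : ℝ) ^ l) • z) * H z)) := by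
        refine lintegral_mono_ae ?_
        filter_upwards [hne] with z hz
        rw [ENNReal.tsum_mul_right]
        calc ENNReal.ofReal (Om κ (S + ‖z‖ ^ 2)) * H z
            ≤ (2 * W z + 3 * ∑' l : ℕ, gw κ S (((2 : ℝ) ^ l) • z)) * H z := by
              gcongr
              exact om_pt hOM hκ hS hz
          _ = _ := by ring
    _ = 2 * I + 3 * ∑' l : ℕ, ∫⁻ z : E m, gw κ S (((2 : ℝ) ^ l) • z) * H z := by
        have hm1 : ∀ l : ℕ, Measurable (fun z : E m => gw κ S (((2 : ℝ) ^ l) • z) * H z) :=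
          fun l => (hg.comp (measurable_const_smul _)).mul hH
        have m4 : Measurable (fun z : E m => W z * H z) := hWm.mul hH
        have m5 : Measurable (fun z : E m => 2 * (W z * H z)) := m4.const_mul 2
        rw [lintegral_add_left m5, lintegral_const_mul _ m4, lintegral_const_mul _ (Measurable.ennreal_tsum hm1),
          lintegral_tsum fun l => (hm1 l).aemeasurable]
    _ ≤ 2 * I + 3 * ∑' l : ℕ, (2⁻¹ : ℝ≥0∞) ^ l * (ENNReal.ofReal (Real.exp (4 * c)) * I) := by
        gcongr with l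
        exact hpiece l
    _ = ENNReal.ofReal (2 + 6 * Real.exp (4 * c)) * I := by
        rw [ENNReal.tsum_mul_right, ENNReal.tsum_geometric, ENNReal.one_sub_inv_two, inv_inv,
          ENNReal.ofReal_add (by norm_num) (by positivity), ENNReal.ofReal_mul (by norm_num)]
        simp only [ENNReal.ofReal_ofNat]
        ring

end Pool.Agent.L7h26.PD
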