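import Pool.Agent.L7h38.PD.Stm

set_option autoImplicit false

/-!
# Project PD: `S_COSH`
-/

open MeasureTheory Set Filter Topology
open scoped ENNReal RealInnerProductSpace

namespace Pool.Agent.L7h26.PD

open Pool.Agent.L7h38.PD

/-- `φ(w + v) = φ(w) e^{-‖v‖²/2} e^{-⟨w,v⟩}`. -/
theorem phi_add {k : ℕ} (w v : E k) : Real.exp (-‖w + v‖ ^ 2 / 2) =
    Real.exp (-‖w‖ ^ 2 / 2) * (Real.exp (-‖v‖ ^ 2 / 2) * Real.exp (-⟪w, v⟫)) := by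
  rw [← Real.exp_add, ← Real.exp_add, norm_add_sq_real]
  congr 1
  ring

theorem phi_cosh {k : ℕ} (w v : E k) {t : ℝ} (ht0 : 0 ≤ t) (ht1 : t ≤ 1) :
    Real.exp (-‖w + t • v‖ ^ 2 / 2) + Real.exp (-‖w + -(t • v)‖ ^ 2 / 2) ≤
      Real.exp (‖v‖ ^ 2 / 2) *
        (Real.exp (-‖w + v‖ ^ 2 / 2) + Real.exp (-‖w + -v‖ ^ 2 / 2)) := by
  rw [phi_add, phi_add, phi_add, phi_add]
  simp only [norm_neg, inner_neg_right, neg_neg, norm_smul, inner_smul_right]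
  have hc : ∀ a : ℝ, Real.exp (-a) + Real.exp a = 2 * Real.cosh a := by
    intro a
    rw [Real.cosh_eq]
    ring
  have e1 : Real.exp (‖v‖ ^ 2 / 2) * Real.exp (-‖v‖ ^ 2 / 2) = 1 := by
    rw [← Real.exp_add, ← Real.exp_zero]
    congr 1
    ring
  have e2 : Real.exp (-(‖t‖ * ‖v‖) ^ 2 / 2) ≤ 1 := by
    rw [Real.exp_le_one_iff]
    have : 0 ≤ (‖t‖ * ‖v‖) ^ 2 := by positivity
    linarith
  have e3 : Real.cosh (t * ⟪w, v⟫) ≤ Real.cosh ⟪w, v⟫ := by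
    rw [Real.cosh_le_cosh, abs_mul, abs_of_nonneg ht0]
    have : 0 ≤ |⟪w, v⟫| := abs_nonneg _
    nlinarith
  have e4 : 0 < Real.cosh (t * ⟪w, v⟫) := Real.cosh_pos _
  have hw : 0 < Real.exp (-‖w‖ ^ 2 / 2) := Real.exp_pos _
  calc Real.exp (-‖w‖ ^ 2 / 2) * (Real.exp (-(‖t‖ * ‖v‖) ^ 2 / 2) * Real.exp (-(t * ⟪w, v⟫))) +
        Real.exp (-‖w‖ ^ 2 / 2) * (Real.exp (-(‖t‖ * ‖v‖) ^ 2 / 2) * Real.exp (t * ⟪w, v⟫))
      = Real.exp (-‖w‖ ^ 2 / 2) * (Real.exp (-(‖t‖ * ‖v‖) ^ 2 / 2) *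
          (Real.exp (-(t * ⟪w, v⟫)) + Real.exp (t * ⟪w, v⟫))) := by ring
    _ = Real.exp (-‖w‖ ^ 2 / 2) * (Real.exp (-(‖t‖ * ‖v‖) ^ 2 / 2) *
          (2 * Real.cosh (t * ⟪w, v⟫))) := by rw [hc]
    _ ≤ Real.exp (-‖w‖ ^ 2 / 2) * (1 * (2 * Real.cosh ⟪w, v⟫)) := by
        gcongr
    _ = Real.exp (-‖w‖ ^ 2 / 2) * ((Real.exp (‖v‖ ^ 2 / 2) * Real.exp (-‖v‖ ^ 2 / 2)) *
          (Real.exp (-⟪w, v⟫) + Real.exp ⟪w, v⟫)) := by rw [e1, hc]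
    _ = _ := by ring

/-- Translation. -/
theorem HH_eq {m k : ℕ} (R : E m →L[ℝ] E k) (C : E k ≃L[ℝ] E k) {j : E k → ℝ≥0∞}
    (θ : E k) (z : E m) :
    HH R C j θ z = ∫⁻ w : E k, j (θ + C w) *
      ENNReal.ofReal (Real.exp (-‖w + C.symm (R z)‖ ^ 2 / 2)) := by
  unfold HH
  rw [← lintegral_add_right_eq_self (fun w : E k => j (θ - R z + C w) *
    ENNReal.ofReal (Real.exp (-‖w‖ ^ 2 / 2))) (C.symm (R z))]
  refine lintegral_congr fun w => ?_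
  have h1 : θ - R z + C (w + C.symm (R z)) = θ + C w := by
    rw [map_add, ContinuousLinearEquiv.apply_symm_apply]
    abel
  rw [h1]

/-- **S_COSH.** -/
theorem s_COSH : S_COSH := by
  intro m k R C j hj θ t z ht0 ht1
  set v : E k := C.symm (R z) with hv
  have hm : ∀ u : E k, Measurable (fun w : E k => j (θ + C w) *
      ENNReal.ofReal (Real.exp (-‖w + u‖ ^ 2 / 2))) := by
    intro u
    refine (hj.comp (measurable_const.add C.continuous.measurable)).mul ?_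
    refine Measurable.ennreal_ofReal ?_
    exact ((((measurable_id.add_const u).norm.pow_const 2).neg.div_const 2).exp)
  have h1 : C.symm (R (t • z)) = t • v := by rw [hv, map_smul, map_smul]
  have h2 : C.symm (R (-(t • z))) = -(t • v) := by rw [map_neg, map_neg, h1]
  have h3 : C.symm (R (-z)) = -v := by rw [map_neg, map_neg]
  have hm2 : Measurable (fun w : E k => j (θ + C w) *
      ENNReal.ofReal (Real.exp (-‖w + v‖ ^ 2 / 2)) + j (θ + C w) *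
      ENNReal.ofReal (Real.exp (-‖w + -v‖ ^ 2 / 2))) := (hm _).add (hm _)
  rw [HH_eq, HH_eq, HH_eq, HH_eq, h1, h2, h3, ← hv, ← lintegral_add_left (hm _),
    ← lintegral_add_left (hm _), ← lintegral_const_mul _ hm2]
  refine lintegral_mono fun w => ?_
  show j (θ + C w) * ENNReal.ofReal (Real.exp (-‖w + t • v‖ ^ 2 / 2)) +
      j (θ + C w) * ENNReal.ofReal (Real.exp (-‖w + -(t • v)‖ ^ 2 / 2)) ≤
    ENNReal.ofReal (Real.exp (‖(C.symm : E k →L[ℝ] E k).comp R‖ ^ 2 / 2 * ‖z‖ ^ 2)) *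
      (j (θ + C w) * ENNReal.ofReal (Real.exp (-‖w + v‖ ^ 2 / 2)) +
        j (θ + C w) * ENNReal.ofReal (Real.exp (-‖w + -v‖ ^ 2 / 2)))
  have hvz : ‖v‖ ^ 2 / 2 ≤ ‖(C.symm : E k →L[ℝ] E k).comp R‖ ^ 2 / 2 * ‖z‖ ^ 2 := by
    have g1 : ‖v‖ ≤ ‖(C.symm : E k →L[ℝ] E k).comp R‖ * ‖z‖ :=
      ((C.symm : E k →L[ℝ] E k).comp R).le_opNorm z
    have g2 := pow_le_pow_left₀ (norm_nonneg v) g1 2
    rw [mul_pow] at g2
    linarith
  have hreal : Real.exp (-‖w + t • v‖ ^ 2 / 2) + Real.exp (-‖w + -(t • v)‖ ^ 2 / 2) ≤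
      Real.exp (‖(C.symm : E k →L[ℝ] E k).comp R‖ ^ 2 / 2 * ‖z‖ ^ 2) *
        (Real.exp (-‖w + v‖ ^ 2 / 2) + Real.exp (-‖w + -v‖ ^ 2 / 2)) := by
    refine (phi_cosh w v ht0 ht1).trans ?_
    gcongr
  rw [← mul_add, ← mul_add, ← ENNReal.ofReal_add (Real.exp_pos _).le (Real.exp_pos _).le,
    ← ENNReal.ofReal_add (Real.exp_pos _).le (Real.exp_pos _).le]
  calc j (θ + C w) * ENNReal.ofReal (Real.exp (-‖w + t • v‖ ^ 2 / 2) +
        Real.exp (-‖w + -(t • v)‖ ^ 2 / 2))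
      ≤ j (θ + C w) * ENNReal.ofReal (Real.exp (‖(C.symm : E k →L[ℝ] E k).comp R‖ ^ 2 / 2 *
          ‖z‖ ^ 2) * (Real.exp (-‖w + v‖ ^ 2 / 2) + Real.exp (-‖w + -v‖ ^ 2 / 2))) := by
        gcongr
    _ = _ := by
        rw [ENNReal.ofReal_mul (Real.exp_pos _).le]
        ring

end Pool.Agent.L7h26.PD
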