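import Pool.Agent.L7h26.PD.Int2

set_option autoImplicit false

/-!
# Project PD: master integrability with the Gaussian variable (`S_INT`)
-/

open MeasureTheory Set Filter Topology

namespace Pool.Agent.L7h26.PD

open Pool.Agent.L7h38.PD

theorem int_w (k : ℕ) {c : ℝ} (hc : 0 < c) :
    Integrable (fun w : E k => Real.exp (-c * ‖w‖ ^ 2)) := by
  have h := GaussianFourier.integrable_cexp_neg_mul_sq_norm_add (V := E k) (b := (c : ℂ))
    (by simpa using hc) 0 0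
  have h2 := h.norm
  refine h2.congr (ae_of_all _ fun w => ?_)
  simp only [zero_mul, add_zero, Complex.norm_exp]
  congr 1
  norm_cast

theorem int_w_poly (k N : ℕ) :
    Integrable (fun w : E k => Real.exp (-‖w‖ ^ 2 / 2) * (1 + ‖w‖ ^ 2) ^ N) := by
  obtain ⟨C, hC, hCle⟩ := poly_exp (c := 1 / 2) (by norm_num) N
  refine ((int_w k (c := 1 / 4) (by norm_num)).const_mul C).mono' (by fun_prop) ?_
  refine ae_of_all _ fun w => ?_
  have h := hCle (‖w‖ ^ 2) (by positivity)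
  rw [Real.norm_eq_abs, abs_of_nonneg (by positivity)]
  have e1 : Real.exp (-‖w‖ ^ 2 / 2) = Real.exp (-(1 / 2) * ‖w‖ ^ 2) := by
    congr 1
    ring
  have e2 : Real.exp (-(1 / 4) * ‖w‖ ^ 2) = Real.exp (-(1 / 2 / 2) * ‖w‖ ^ 2) := by
    congr 1
    ring
  rw [e1, e2]
  exact h

/-- **S_INT.** -/
theorem s_INT (h2 : S_INT2) : S_INT := by
  intro m k b κ c hb hκ hκb hc N
  have hA := h2 m b κ c hb hκ hκb hc N
  have hB := int_w_poly k N
  have hP : Integrable (fun p : (ℝ × E m) × E k =>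
      (p.1.1 ^ (b - 1) * (p.1.1 + ‖p.1.2‖ ^ 2) ^ (-κ) *
        Real.exp (-c * (p.1.1 + ‖p.1.2‖ ^ 2)) * (1 + p.1.1 + ‖p.1.2‖ ^ 2) ^ N) *
      (Real.exp (-‖p.2‖ ^ 2 / 2) * (1 + ‖p.2‖ ^ 2) ^ N)) ((mu2 m).prod volume) :=
    Integrable.mul_prod (f := fun q : ℝ × E m => q.1 ^ (b - 1) * (q.1 + ‖q.2‖ ^ 2) ^ (-κ) *
        Real.exp (-c * (q.1 + ‖q.2‖ ^ 2)) * (1 + q.1 + ‖q.2‖ ^ 2) ^ N)
      (g := fun w : E k => Real.exp (-‖w‖ ^ 2 / 2) * (1 + ‖w‖ ^ 2) ^ N) hA hB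
  have hmp : MeasurePreserving (MeasurableEquiv.prodAssoc : (ℝ × E m) × E k ≃ᵐ ℝ × E m × E k)
      ((mu2 m).prod volume) (mu m k) :=
    measurePreserving_prodAssoc (volume.restrict (Ioi (0 : ℝ))) volume volume
  have hQ : Integrable (fun p : ℝ × E m × E k =>
      (p.1 ^ (b - 1) * (p.1 + ‖p.2.1‖ ^ 2) ^ (-κ) *
        Real.exp (-c * (p.1 + ‖p.2.1‖ ^ 2)) * (1 + p.1 + ‖p.2.1‖ ^ 2) ^ N) *
      (Real.exp (-‖p.2.2‖ ^ 2 / 2) * (1 + ‖p.2.2‖ ^ 2) ^ N)) (mu m k) := by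
    rw [← hmp.integrable_comp_emb (MeasurableEquiv.measurableEmbedding _)]
    exact hP
  have hmeas : Measurable (fun p : ℝ × E m × E k => p.1 ^ (b - 1) * (TT p) ^ (-κ) *
      Real.exp (-c * TT p) * Real.exp (-‖p.2.2‖ ^ 2 / 2) * (1 + TT p + ‖p.2.2‖ ^ 2) ^ N) := by
    have h1 : Measurable (fun p : ℝ × E m × E k => p.1) := measurable_fst
    have h3 : Measurable (fun p : ℝ × E m × E k => TT p) :=
      h1.add ((measurable_fst.comp measurable_snd).norm.pow_const 2)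
    have h4 : Measurable (fun p : ℝ × E m × E k => ‖p.2.2‖ ^ 2) :=
      (measurable_snd.comp measurable_snd).norm.pow_const 2
    exact ((((h1.pow_const _).mul (h3.pow_const _)).mul ((h3.const_mul (-c)).exp)).mul
      ((h4.neg.div_const 2).exp)).mul (((measurable_const.add h3).add h4).pow_const N)
  refine hQ.mono' hmeas.aestronglyMeasurable ?_
  have hae : ∀ᵐ p : ℝ × E m × E k ∂(mu m k), 0 < p.1 := by
    have h1 : ∀ᵐ S ∂(volume.restrict (Ioi (0 : ℝ))), 0 < S := ae_restrict_mem measurableSet_Ioi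
    exact Measure.quasiMeasurePreserving_fst.ae h1
  filter_upwards [hae] with p hp
  have hT0 : 0 < TT p := by
    unfold TT
    positivity
  have hA0 : 0 ≤ p.1 ^ (b - 1) * (TT p) ^ (-κ) * Real.exp (-c * TT p) *
      Real.exp (-‖p.2.2‖ ^ 2 / 2) := by
    have := Real.rpow_nonneg hp.le (b - 1)
    have := Real.rpow_nonneg hT0.le (-κ)
    positivity
  have hw0 : 0 ≤ ‖p.2.2‖ ^ 2 := by positivity
  rw [Real.norm_eq_abs, abs_of_nonneg (mul_nonneg hA0 (by positivity))]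
  have hle : (1 + TT p + ‖p.2.2‖ ^ 2) ^ N ≤ ((1 + TT p) * (1 + ‖p.2.2‖ ^ 2)) ^ N := by
    refine pow_le_pow_left₀ (by positivity) ?_ N
    nlinarith [mul_nonneg hT0.le hw0]
  calc _ ≤ p.1 ^ (b - 1) * (TT p) ^ (-κ) * Real.exp (-c * TT p) *
      Real.exp (-‖p.2.2‖ ^ 2 / 2) * ((1 + TT p) * (1 + ‖p.2.2‖ ^ 2)) ^ N :=
        mul_le_mul_of_nonneg_left hle hA0
    _ = _ := by
        rw [mul_pow]
        unfold TT
        rw [← add_assoc]
        ring

end Pool.Agent.L7h26.PD
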