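import Pool.Agent.L7h38.PD.Stm

set_option autoImplicit false

/-!
# Project PD: master integrability (`S_INT2`)
-/

open MeasureTheory Set Filter Topology

namespace Pool.Agent.L7h26.PD

open Pool.Agent.L7h38.PD

/-- `(1+t)^N exp(-c t) ≤ C exp(-c t / 2)` for `t ≥ 0`. -/
theorem poly_exp {c : ℝ} (hc : 0 < c) (N : ℕ) : ∃ C : ℝ, 0 < C ∧ ∀ t : ℝ, 0 ≤ t →
    Real.exp (-c * t) * (1 + t) ^ N ≤ C * Real.exp (-(c / 2) * t) := by
  -- (1+t)^N ≤ N! (2/c)^N exp((c/2)(1+t))
  refine ⟨(N.factorial : ℝ) * (2 / c) ^ N * Real.exp (c / 2), by positivity, fun t ht => ?_⟩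
  have h1 : (c / 2 * (1 + t)) ^ N / (N.factorial : ℝ) ≤ Real.exp (c / 2 * (1 + t)) :=
    Real.pow_div_factorial_le_exp _ (by positivity) N
  have hf : (0 : ℝ) < (N.factorial : ℝ) := by positivity
  have h2 : (c / 2 * (1 + t)) ^ N ≤ (N.factorial : ℝ) * Real.exp (c / 2 * (1 + t)) := by
    rw [div_le_iff₀ hf] at h1
    linarith
  have h3 : (1 + t) ^ N = (2 / c) ^ N * (c / 2 * (1 + t)) ^ N := by
    rw [← mul_pow]
    congr 1
    field_simp
  have h4 : Real.exp (-(c / 2) * t) = Real.exp (-c * t) * Real.exp (c / 2 * t) := by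
    rw [← Real.exp_add]
    congr 1
    ring
  have h5 : Real.exp (c / 2 * (1 + t)) = Real.exp (c / 2) * Real.exp (c / 2 * t) := by
    rw [← Real.exp_add]
    congr 1
    ring
  rw [h3, h4]
  have h6 : (0 : ℝ) < (2 / c) ^ N := by positivity
  calc Real.exp (-c * t) * ((2 / c) ^ N * (c / 2 * (1 + t)) ^ N)
      ≤ Real.exp (-c * t) * ((2 / c) ^ N * ((N.factorial : ℝ) * Real.exp (c / 2 * (1 + t)))) := by
        refine mul_le_mul_of_nonneg_left ?_ (Real.exp_pos _).le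
        exact mul_le_mul_of_nonneg_left h2 h6.le
    _ = _ := by
        rw [h5]
        ring

theorem int_S {a c : ℝ} (ha : -1 < a) (hc : 0 < c) :
    IntegrableOn (fun S : ℝ => S ^ a * Real.exp (-c * S)) (Ioi 0) := by
  have := integrableOn_rpow_mul_exp_neg_mul_rpow (p := 1) (s := a) (b := c) ha zero_lt_one hc
  simpa using this

/-- Integrability of `‖z‖^(-2κ₂) e^{-c‖z‖²}` on `E m`. -/
theorem int_z {m : ℕ} (hm : 0 < m) {κ₂ c : ℝ} (hκ : κ₂ < (m : ℝ) / 2) (hc : 0 < c) :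
    Integrable (fun z : E m => (‖z‖ ^ 2) ^ (-κ₂) * Real.exp (-c * ‖z‖ ^ 2)) := by
  have : Nonempty (Fin m) := ⟨⟨0, hm⟩⟩
  have : Nontrivial (E m) := inferInstance
  have h := (integrable_fun_norm_addHaar (volume : Measure (E m))
    (f := fun r : ℝ => (r ^ 2) ^ (-κ₂) * Real.exp (-c * r ^ 2))).1
  refine (integrable_fun_norm_addHaar (volume : Measure (E m))
    (f := fun r : ℝ => (r ^ 2) ^ (-κ₂) * Real.exp (-c * r ^ 2))).2 ?_
  rw [finrank_euclideanSpace_fin]
  have h1 := integrableOn_rpow_mul_exp_neg_mul_rpow (p := 2) (s := (m : ℝ) - 1 - 2 * κ₂) (b := c)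
    (by linarith) (by norm_num) hc
  refine h1.congr_fun (fun r hr => ?_) measurableSet_Ioi
  have hr0 : (0 : ℝ) < r := hr
  have h2 : r ^ ((m : ℝ) - 1 - 2 * κ₂) = r ^ (m - 1) * (r ^ 2) ^ (-κ₂) := by
    have h3 : (r ^ 2) ^ (-κ₂) = r ^ (-(2 * κ₂)) := by
      rw [← Real.rpow_natCast, ← Real.rpow_mul hr0.le]
      congr 1
      push_cast
      ring
    have h4 : r ^ (m - 1) = r ^ ((m : ℝ) - 1) := by
      rw [← Real.rpow_natCast]
      congr 1
      rw [Nat.cast_sub hm]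
      simp
    rw [h3, h4, ← Real.rpow_add hr0]
    congr 1
  show r ^ ((m : ℝ) - 1 - 2 * κ₂) * Real.exp (-c * r ^ (2 : ℝ)) =
    r ^ (m - 1) • ((r ^ 2) ^ (-κ₂) * Real.exp (-c * r ^ 2))
  rw [h2, smul_eq_mul, show r ^ (2 : ℝ) = r ^ 2 from Real.rpow_two r]
  ring

/-- **S_INT2.** -/
theorem s_INT2 : S_INT2 := by
  intro m b κ c hb hκ hκb hc N
  obtain ⟨C, hC, hCle⟩ := poly_exp hc N
  have hc2 : 0 < c / 2 := by positivity
  -- measurability
  have hmeas : Measurable (fun q : ℝ × E m => q.1 ^ (b - 1) * (q.1 + ‖q.2‖ ^ 2) ^ (-κ) *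
      Real.exp (-c * (q.1 + ‖q.2‖ ^ 2)) * (1 + q.1 + ‖q.2‖ ^ 2) ^ N) := by
    have h1 : Measurable (fun q : ℝ × E m => q.1) := measurable_fst
    have h2 : Measurable (fun q : ℝ × E m => ‖q.2‖ ^ 2) := (measurable_snd.norm).pow_const 2
    exact (((h1.pow_const _).mul ((h1.add h2).pow_const _)).mul
      (((h1.add h2).const_mul (-c)).exp)).mul (((measurable_const.add h1).add h2).pow_const N)
  set D : ℝ := b + (m : ℝ) / 2 with hD
  have hD0 : 0 < D := by positivity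
  set κ₁ : ℝ := κ * b / D with hκ₁
  set κ₂ : ℝ := κ * ((m : ℝ) / 2) / D with hκ₂
  have hsum : κ₁ + κ₂ = κ := by
    rw [hκ₁, hκ₂, ← add_div, ← mul_add, ← hD]
    field_simp
  have hκ₁0 : 0 ≤ κ₁ := by positivity
  have hκ₂0 : 0 ≤ κ₂ := by positivity
  have hκ₁b : κ₁ < b := by
    rw [hκ₁, div_lt_iff₀ hD0]
    nlinarith
  -- product bound
  rcases Nat.eq_zero_or_pos m with hm | hm
  · have hκ₂z : κ₂ = 0 := by
      rw [hκ₂, hm]
      simp
    have hdom : Integrable (fun q : ℝ × E m => (q.1 ^ (b - 1 - κ) * Real.exp (-(c / 2) * q.1)) *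
        (C * Real.exp (-(c / 2) * ‖q.2‖ ^ 2))) (mu2 m) := by
      unfold mu2
      refine Integrable.mul_prod (f := fun S : ℝ => S ^ (b - 1 - κ) * Real.exp (-(c / 2) * S))
        (g := fun z : E m => C * Real.exp (-(c / 2) * ‖z‖ ^ 2)) ?_ ?_
      · exact int_S (by linarith) hc2
      · subst hm
        have : IsFiniteMeasure (volume : Measure (E 0)) := by
          constructor
          have : (univ : Set (E 0)) = {0} := by
            ext x
            simp [Subsingleton.elim x 0]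
          rw [this]
          exact (isCompact_singleton).measure_lt_top
        refine Integrable.mono' (integrable_const C) (by fun_prop) (ae_of_all _ fun z => ?_)
        have : z = 0 := Subsingleton.elim _ _
        subst this
        simp [abs_of_pos hC]
    refine hdom.mono' hmeas.aestronglyMeasurable ?_
    unfold mu2
    have hae : ∀ᵐ q : ℝ × E m ∂((volume.restrict (Ioi (0 : ℝ))).prod volume), 0 < q.1 := by
      have h1 : ∀ᵐ S ∂(volume.restrict (Ioi (0 : ℝ))), 0 < S := ae_restrict_mem measurableSet_Ioi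
      exact Measure.quasiMeasurePreserving_fst.ae h1
    filter_upwards [hae] with q hq
    have hz : ‖q.2‖ = 0 := by
      subst hm
      rw [Subsingleton.elim q.2 0, norm_zero]
    have hT0 : 0 ≤ q.1 := hq.le
    rw [hz]
    have h1 : q.1 ^ (b - 1 - κ) = q.1 ^ (b - 1) * q.1 ^ (-κ) := by
      rw [← Real.rpow_add hq]
      congr 1
    have h2 := hCle q.1 hT0
    have h3 : 0 < q.1 ^ (b - 1) * q.1 ^ (-κ) :=
      mul_pos (Real.rpow_pos_of_pos hq _) (Real.rpow_pos_of_pos hq _)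
    have h4 : 0 ≤ Real.exp (-c * q.1) * (1 + q.1) ^ N := by positivity
    simp only [ne_eq, OfNat.ofNat_ne_zero, not_false_eq_true, zero_pow, add_zero, mul_zero,
      Real.exp_zero, mul_one]
    rw [Real.norm_eq_abs, mul_assoc, abs_of_nonneg (mul_nonneg h3.le h4), h1]
    calc q.1 ^ (b - 1) * q.1 ^ (-κ) * (Real.exp (-c * q.1) * (1 + q.1) ^ N)
        ≤ q.1 ^ (b - 1) * q.1 ^ (-κ) * (C * Real.exp (-(c / 2) * q.1)) :=
          mul_le_mul_of_nonneg_left h2 h3.le
      _ = _ := by ring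
  · have hm2 : (0 : ℝ) < (m : ℝ) / 2 := by
      have : (0 : ℝ) < m := by exact_mod_cast hm
      positivity
    have hκ₂m : κ₂ < (m : ℝ) / 2 := by
      rw [hκ₂, div_lt_iff₀ hD0]
      nlinarith
    have hdom : Integrable (fun q : ℝ × E m => (q.1 ^ (b - 1 - κ₁) * Real.exp (-(c / 2) * q.1)) *
        (C * ((‖q.2‖ ^ 2) ^ (-κ₂) * Real.exp (-(c / 2) * ‖q.2‖ ^ 2)))) (mu2 m) := by
      unfold mu2
      exact Integrable.mul_prod (f := fun S : ℝ => S ^ (b - 1 - κ₁) * Real.exp (-(c / 2) * S))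
        (g := fun z : E m => C * ((‖z‖ ^ 2) ^ (-κ₂) * Real.exp (-(c / 2) * ‖z‖ ^ 2)))
        (int_S (by linarith) hc2) ((int_z hm hκ₂m hc2).const_mul C)
    refine hdom.mono' hmeas.aestronglyMeasurable ?_
    unfold mu2
    have hae : ∀ᵐ q : ℝ × E m ∂((volume.restrict (Ioi (0 : ℝ))).prod volume), 0 < q.1 := by
      have h1 : ∀ᵐ S ∂(volume.restrict (Ioi (0 : ℝ))), 0 < S := ae_restrict_mem measurableSet_Ioi
      exact Measure.quasiMeasurePreserving_fst.ae h1
    have hae2 : ∀ᵐ q : ℝ × E m ∂((volume.restrict (Ioi (0 : ℝ))).prod volume), q.2 ≠ 0 := by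
      have : Nonempty (Fin m) := ⟨⟨0, hm⟩⟩
      have h1 : ∀ᵐ z : E m, z ≠ 0 := by
        rw [ae_iff]
        simp
      exact Measure.quasiMeasurePreserving_snd.ae h1
    filter_upwards [hae, hae2] with q hq hz
    have hz2 : 0 < ‖q.2‖ ^ 2 := by positivity
    set T : ℝ := q.1 + ‖q.2‖ ^ 2 with hT
    have hT0 : 0 < T := by positivity
    have h1 : q.1 ^ (b - 1 - κ₁) = q.1 ^ (b - 1) * q.1 ^ (-κ₁) := by
      rw [← Real.rpow_add hq]
      congr 1
    have h2 := hCle T hT0.le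
    have h3 : T ^ (-κ) ≤ q.1 ^ (-κ₁) * (‖q.2‖ ^ 2) ^ (-κ₂) := by
      rw [← hsum, neg_add, Real.rpow_add hT0]
      refine mul_le_mul ?_ ?_ (Real.rpow_nonneg hT0.le _) (Real.rpow_nonneg hq.le _)
      · exact Real.rpow_le_rpow_of_nonpos hq (by rw [hT]; linarith) (by linarith)
      · exact Real.rpow_le_rpow_of_nonpos hz2 (by rw [hT]; linarith) (by linarith)
    have h4 : Real.exp (-(c / 2) * T) = Real.exp (-(c / 2) * q.1) *
        Real.exp (-(c / 2) * ‖q.2‖ ^ 2) := by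
      rw [← Real.exp_add, hT]
      congr 1
      ring
    have h5 : 0 < q.1 ^ (b - 1) := Real.rpow_pos_of_pos hq _
    have h6 : 0 ≤ T ^ (-κ) := Real.rpow_nonneg hT0.le _
    have h7 : 0 ≤ Real.exp (-c * T) * (1 + T) ^ N := by positivity
    have h8 : 1 + q.1 + ‖q.2‖ ^ 2 = 1 + T := by
      rw [hT]
      ring
    rw [h8, Real.norm_eq_abs, mul_assoc, abs_of_nonneg (mul_nonneg (mul_nonneg h5.le h6) h7), h1]
    calc q.1 ^ (b - 1) * T ^ (-κ) * (Real.exp (-c * T) * (1 + T) ^ N)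
        ≤ q.1 ^ (b - 1) * (q.1 ^ (-κ₁) * (‖q.2‖ ^ 2) ^ (-κ₂)) *
            (C * Real.exp (-(c / 2) * T)) := by
          refine mul_le_mul (mul_le_mul_of_nonneg_left h3 h5.le) h2 h7 ?_
          exact mul_nonneg h5.le (mul_nonneg (Real.rpow_nonneg hq.le _)
            (Real.rpow_nonneg hz2.le _))
      _ = _ := by
          rw [h4]
          ring

end Pool.Agent.L7h26.PD
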