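import Pool.Agent.L7h26.PD.Om
import Pool.Agent.L7h26.PD.Int

set_option autoImplicit false

/-!
# Project PD: `S_INT → S_OM → S_LOW` and `S_INT → S_UP`
-/

open MeasureTheory Set Filter Topology
open scoped ENNReal

namespace Pool.Agent.L7h26.PD

open Pool.Agent.L7h38.PD

section
variable {m k : ℕ}

theorem mu_pos_ae : ∀ᵐ p : ℝ × E m × E k ∂(mu m k), 0 < p.1 := by
  have h1 : ∀ᵐ S ∂(volume.restrict (Ioi (0 : ℝ))), 0 < S := ae_restrict_mem measurableSet_Ioi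
  exact Measure.quasiMeasurePreserving_fst.ae h1

theorem psi_nonneg {K S : ℝ} (hK : 0 < K) (hS : 0 < S) (x : E k) : 0 ≤ psi K S x := by
  unfold psi
  positivity

theorem psi_le_one {K S : ℝ} (hK : 0 < K) (hS : 0 < S) (x : E k) : psi K S x ≤ 1 := by
  unfold psi
  have : 0 < K * S := by positivity
  rw [div_le_one (by positivity)]
  nlinarith [sq_nonneg ‖x‖]

theorem meas_TT : Measurable (fun p : ℝ × E m × E k => TT p) :=
  measurable_fst.add ((measurable_fst.comp measurable_snd).norm.pow_const 2)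

theorem meas_xx (θ : E k) (R : E m →L[ℝ] E k) (C : E k ≃L[ℝ] E k) :
    Measurable (fun p : ℝ × E m × E k => xx θ R C p) := by
  unfold xx
  have h1 : Measurable (fun p : ℝ × E m × E k => R p.2.1) :=
    R.continuous.measurable.comp (measurable_fst.comp measurable_snd)
  have h2 : Measurable (fun p : ℝ × E m × E k => C p.2.2) :=
    C.continuous.measurable.comp (measurable_snd.comp measurable_snd)
  exact (measurable_const.sub h1).add h2

theorem meas_psi (K : ℝ) (θ : E k) (R : E m →L[ℝ] E k) (C : E k ≃L[ℝ] E k) :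
    Measurable (fun p : ℝ × E m × E k => psi K p.1 (xx θ R C p)) := by
  unfold psi
  have h1 : Measurable (fun p : ℝ × E m × E k => ‖xx θ R C p‖ ^ 2) :=
    (meas_xx θ R C).norm.pow_const 2
  have h2 : Measurable (fun p : ℝ × E m × E k => K * p.1) := measurable_fst.const_mul K
  exact h2.div (h2.add h1)

theorem meas_w : Measurable (fun p : ℝ × E m × E k => Real.exp (-‖p.2.2‖ ^ 2 / 2)) :=
  (((measurable_snd.comp measurable_snd).norm.pow_const 2).neg.div_const 2).exp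

end

/-- Measurability of `Ω ∘ T`. -/
theorem meas_om {m k : ℕ} {κ : ℝ} (hOM : S_OM) (hκ : 0 ≤ κ) :
    AEStronglyMeasurable (fun p : ℝ × E m × E k => Om κ (TT p)) (mu m k) := by
  have hc : ContinuousOn (fun p : ℝ × E m × E k => Om κ (TT p)) {p | 0 < p.1} := by
    intro p hp
    have hT : 0 < TT p := by
      unfold TT
      have : 0 < p.1 := hp
      positivity
    have h1 : ContinuousAt (Om κ) (TT p) := ((hOM κ hκ).1 _ hT).2.2.2.1.continuousAt
    have h2 : Continuous (fun p : ℝ × E m × E k => TT p) := by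
      unfold TT
      fun_prop
    exact (ContinuousAt.comp (f := fun p : ℝ × E m × E k => TT p) h1
      h2.continuousAt).continuousWithinAt
  have hs : MeasurableSet {p : ℝ × E m × E k | 0 < p.1} :=
    measurableSet_lt measurable_const measurable_fst
  have h := hc.aestronglyMeasurable hs (μ := mu m k)
  have hae : ∀ᵐ p ∂(mu m k), p ∈ {p : ℝ × E m × E k | 0 < p.1} := mu_pos_ae
  rwa [Measure.restrict_eq_self_of_ae_mem hae] at h

/-- The integrand of `S_LOW` is integrable. -/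
theorem low_int (hINT : S_INT) (hOM : S_OM) {m k : ℕ} {b κ K : ℝ} (hb : 0 < b) (hκ : 0 ≤ κ)
    (hκb : κ < b + (m : ℝ) / 2) (hK : 0 < K) (R : E m →L[ℝ] E k) (C : E k ≃L[ℝ] E k) (θ : E k) :
    Integrable (fun p : ℝ × E m × E k => p.1 ^ (b - 1) * Om κ (TT p) *
      psi K p.1 (xx θ R C p) ^ 2 * Real.exp (-‖p.2.2‖ ^ 2 / 2)) (mu m k) := by
  obtain ⟨η, hη1, hη2⟩ := exists_between hκb
  obtain ⟨D, hD, hDle⟩ := (hOM κ hκ).2.2 η hη1
  have hI := (hINT m k b η (1 / 4) hb (by linarith) hη2 (by norm_num) 0).const_mul D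
  refine hI.mono' ?_ ?_
  · have h1 : Measurable (fun p : ℝ × E m × E k => p.1 ^ (b - 1)) :=
      measurable_fst.pow_const _
    exact ((h1.aestronglyMeasurable.mul (meas_om hOM hκ)).mul
      ((meas_psi K θ R C).pow_const 2).aestronglyMeasurable).mul meas_w.aestronglyMeasurable
  · filter_upwards [mu_pos_ae] with p hp
    have hT : 0 < TT p := by
      unfold TT
      positivity
    have h1 := psi_nonneg hK hp (xx θ R C p)
    have h2 := psi_le_one hK hp (xx θ R C p)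
    have h3 := (((hOM κ hκ).1 _ hT).2.2.2.2.1).le
    have h4 := hDle _ hT
    have h5 : 0 ≤ p.1 ^ (b - 1) := Real.rpow_nonneg hp.le _
    have h6 : psi K p.1 (xx θ R C p) ^ 2 ≤ 1 := pow_le_one₀ h1 h2
    rw [Real.norm_eq_abs, abs_of_nonneg (by positivity)]
    simp only [pow_zero, mul_one]
    calc p.1 ^ (b - 1) * Om κ (TT p) * psi K p.1 (xx θ R C p) ^ 2 * Real.exp (-‖p.2.2‖ ^ 2 / 2)
        ≤ p.1 ^ (b - 1) * (D * (TT p ^ (-η) * Real.exp (-(1 / 4) * TT p))) * 1 *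
            Real.exp (-‖p.2.2‖ ^ 2 / 2) := by
          refine mul_le_mul_of_nonneg_right ?_ (Real.exp_pos _).le
          refine mul_le_mul (mul_le_mul_of_nonneg_left h4 h5) h6 (by positivity) ?_
          exact mul_nonneg h5 (h3.trans h4)
      _ = _ := by ring

/-- **S_LOW.** -/
theorem s_LOW (hINT : S_INT) (hOM : S_OM) : S_LOW := by
  intro m k b κ K hb hκ hκb hK R C
  set M : ℝ := ‖R‖ + ‖(C : E k →L[ℝ] E k)‖ with hM
  have hM0 : 0 ≤ M := by positivity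
  set B : Set (ℝ × E m × E k) := Icc (1 : ℝ) 2 ×ˢ (Metric.closedBall (0 : E m) 1 ×ˢ
    Metric.closedBall (0 : E k) 1) with hB
  have hBm : MeasurableSet B := measurableSet_Icc.prod
    (measurableSet_closedBall.prod measurableSet_closedBall)
  have hBv : mu m k B = volume (Icc (1 : ℝ) 2 ∩ Ioi 0) *
      (volume (Metric.closedBall (0 : E m) 1) * volume (Metric.closedBall (0 : E k) 1)) := by
    rw [hB, mu, Measure.prod_prod, Measure.prod_prod, Measure.restrict_apply measurableSet_Icc]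
  have hIcc : Icc (1 : ℝ) 2 ∩ Ioi 0 = Icc (1 : ℝ) 2 := by
    ext x
    simp only [mem_inter_iff, mem_Icc, mem_Ioi, and_iff_left_iff_imp]
    intro h
    linarith [h.1]
  rw [hIcc] at hBv
  have hBfin : mu m k B ≠ ∞ := by
    rw [hBv]
    exact ENNReal.mul_ne_top (by simp) (ENNReal.mul_ne_top measure_closedBall_lt_top.ne
      measure_closedBall_lt_top.ne)
  have hBpos : 0 < mu m k B := by
    rw [hBv]
    refine ENNReal.mul_pos (by simp) (mul_ne_zero ?_ ?_)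
    · exact (Metric.measure_closedBall_pos _ _ one_pos).ne'
    · exact (Metric.measure_closedBall_pos _ _ one_pos).ne'
  have hv : 0 < (mu m k B).toReal := ENNReal.toReal_pos hBpos.ne' hBfin
  have hO3 : 0 < Om κ 3 := ((hOM κ hκ).1 3 (by norm_num)).2.2.2.2.1
  set c1 : ℝ := min 1 ((2 : ℝ) ^ (b - 1)) with hc1
  have hc1p : 0 < c1 := lt_min one_pos (Real.rpow_pos_of_pos two_pos _)
  set c2 : ℝ := K / (K + 2 + 2 * M ^ 2) with hc2
  have hc2p : 0 < c2 := by positivity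
  refine ⟨c1 * Om κ 3 * c2 ^ 2 * Real.exp (-1 / 2) * (mu m k B).toReal, by positivity,
    fun θ => ?_⟩
  set F : ℝ × E m × E k → ℝ := fun p => p.1 ^ (b - 1) * Om κ (TT p) *
      psi K p.1 (xx θ R C p) ^ 2 * Real.exp (-‖p.2.2‖ ^ 2 / 2) with hF
  have hFi : Integrable F (mu m k) := low_int hINT hOM hb hκ hκb hK R C θ
  have hF0 : 0 ≤ᵐ[mu m k] F := by
    filter_upwards [mu_pos_ae] with p hp
    have hT : 0 < TT p := by
      unfold TT
      positivity
    have h3 := (((hOM κ hκ).1 _ hT).2.2.2.2.1).le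
    have h5 : 0 ≤ p.1 ^ (b - 1) := Real.rpow_nonneg hp.le _
    show 0 ≤ F p
    rw [hF]
    positivity
  have hθ : 0 < 1 + ‖θ‖ ^ 2 := by positivity
  have hlow : ∀ p ∈ B, c1 * Om κ 3 * (c2 / (1 + ‖θ‖ ^ 2)) ^ 2 * Real.exp (-1 / 2) ≤ F p := by
    rintro ⟨S, z, w⟩ ⟨⟨hS1, hS2⟩, hz, hw⟩
    have hz' : ‖z‖ ≤ 1 := by simpa using hz
    have hw' : ‖w‖ ≤ 1 := by simpa using hw
    have hS1' : 1 ≤ S := hS1
    have hS2' : S ≤ 2 := hS2
    have hS0 : 0 < S := by linarith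
    have hzz : ‖z‖ ^ 2 ≤ 1 := pow_le_one₀ (norm_nonneg _) hz'
    have hww : ‖w‖ ^ 2 ≤ 1 := pow_le_one₀ (norm_nonneg _) hw'
    have e1 : c1 ≤ S ^ (b - 1) := by
      rcases le_total 0 (b - 1) with h | h
      · exact (min_le_left _ _).trans (Real.one_le_rpow hS1' h)
      · exact (min_le_right _ _).trans (Real.rpow_le_rpow_of_nonpos hS0 hS2' h)
    have e2 : Om κ 3 ≤ Om κ (S + ‖z‖ ^ 2) :=
      ((hOM κ hκ).2.1 (S + ‖z‖ ^ 2) 3 (by positivity) (by linarith)).2.1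
    have e3 : Real.exp (-1 / 2) ≤ Real.exp (-‖w‖ ^ 2 / 2) := Real.exp_le_exp.2 (by linarith)
    set x : E k := θ - R z + C w with hx
    have hxn : ‖x‖ ≤ ‖θ‖ + M := by
      have h1 : ‖R z‖ ≤ ‖R‖ := by
        calc ‖R z‖ ≤ ‖R‖ * ‖z‖ := R.le_opNorm z
          _ ≤ ‖R‖ * 1 := mul_le_mul_of_nonneg_left hz' (norm_nonneg _)
          _ = ‖R‖ := mul_one _
      have h2 : ‖C w‖ ≤ ‖(C : E k →L[ℝ] E k)‖ := by
        calc ‖C w‖ ≤ ‖(C : E k →L[ℝ] E k)‖ * ‖w‖ := (C : E k →L[ℝ] E k).le_opNorm w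
          _ ≤ ‖(C : E k →L[ℝ] E k)‖ * 1 := mul_le_mul_of_nonneg_left hw' (norm_nonneg _)
          _ = _ := mul_one _
      calc ‖x‖ ≤ ‖θ - R z‖ + ‖C w‖ := norm_add_le _ _
        _ ≤ ‖θ‖ + ‖R z‖ + ‖C w‖ := by gcongr; exact norm_sub_le _ _
        _ ≤ ‖θ‖ + M := by rw [hM]; linarith
    have hx2 : ‖x‖ ^ 2 ≤ 2 * ‖θ‖ ^ 2 + 2 * M ^ 2 := by
      have h1 : ‖x‖ ^ 2 ≤ (‖θ‖ + M) ^ 2 := pow_le_pow_left₀ (norm_nonneg _) hxn 2
      nlinarith [sq_nonneg (‖θ‖ - M)]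
    have e4 : c2 / (1 + ‖θ‖ ^ 2) ≤ psi K S x := by
      unfold psi
      rw [hc2, div_div, div_le_div_iff₀ (by positivity) (by positivity)]
      have h1 : 0 ≤ ‖x‖ ^ 2 := by positivity
      have h2 : K * S + ‖x‖ ^ 2 ≤ S * ((K + 2 + 2 * M ^ 2) * (1 + ‖θ‖ ^ 2)) := by
        have h3 : ‖x‖ ^ 2 ≤ S * ‖x‖ ^ 2 := by nlinarith
        have h4 : K + ‖x‖ ^ 2 ≤ (K + 2 + 2 * M ^ 2) * (1 + ‖θ‖ ^ 2) := by
          nlinarith [mul_nonneg hK.le (sq_nonneg ‖θ‖), mul_nonneg (sq_nonneg M) (sq_nonneg ‖θ‖)]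
        nlinarith
      nlinarith
    have h0 : 0 ≤ c2 / (1 + ‖θ‖ ^ 2) := by positivity
    show c1 * Om κ 3 * (c2 / (1 + ‖θ‖ ^ 2)) ^ 2 * Real.exp (-1 / 2) ≤
      S ^ (b - 1) * Om κ (S + ‖z‖ ^ 2) * psi K S x ^ 2 * Real.exp (-‖w‖ ^ 2 / 2)
    have e5 : (c2 / (1 + ‖θ‖ ^ 2)) ^ 2 ≤ psi K S x ^ 2 := pow_le_pow_left₀ h0 e4 2
    have e6 : 0 ≤ S ^ (b - 1) := hc1p.le.trans e1
    have e7 : 0 ≤ Om κ (S + ‖z‖ ^ 2) := hO3.le.trans e2
    gcongr
  have h1 := setIntegral_ge_of_const_le hBm hBfin hlow hFi.integrableOn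
  have h2 := setIntegral_le_integral hFi hF0 (s := B)
  rw [smul_eq_mul, Measure.real] at h1
  refine le_trans (le_of_eq ?_) (h1.trans h2)
  clear_value c1 c2
  rw [div_pow]
  ring

/-- **S_UP.** -/
theorem s_UP (hINT : S_INT) : S_UP := by
  intro m k b κ K hb hκ hκb hK R C
  set M : ℝ := 2 * ‖R‖ ^ 2 + 2 * ‖(C : E k →L[ℝ] E k)‖ ^ 2 with hM
  have hM0 : 0 ≤ M := by positivity
  set D : ℝ := 2 * (1 + K) * (1 + M) with hD
  have hD0 : 0 < D := by positivity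
  set G : ℝ × E m × E k → ℝ := fun p => p.1 ^ (b - 1) * (TT p) ^ (-κ) *
    Real.exp (-(1 / 2) * TT p) * Real.exp (-‖p.2.2‖ ^ 2 / 2) * (1 + TT p + ‖p.2.2‖ ^ 2) ^ 4
    with hG
  have hGi : Integrable G (mu m k) := hINT m k b κ (1 / 2) hb hκ hκb (by norm_num) 4
  have hG0 : 0 ≤ ∫ p, G p ∂(mu m k) := by
    refine integral_nonneg_of_ae ?_
    filter_upwards [mu_pos_ae] with p hp
    have hT : 0 < TT p := by
      unfold TT
      positivity
    have h1 : 0 ≤ p.1 ^ (b - 1) := Real.rpow_nonneg hp.le _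
    have h2 : 0 ≤ (TT p) ^ (-κ) := Real.rpow_nonneg hT.le _
    show 0 ≤ G p
    rw [hG]
    positivity
  refine ⟨D ^ 2 * (∫ p, G p ∂(mu m k)) + 1, by positivity, fun θ => ?_⟩
  have hθ : 0 < 1 + ‖θ‖ ^ 2 := by positivity
  have hmain : ∫ p : ℝ × E m × E k, wt b κ p * TT p * psi K p.1 (xx θ R C p) ^ 2 ∂(mu m k) ≤
      ∫ p, D ^ 2 / (1 + ‖θ‖ ^ 2) ^ 2 * G p ∂(mu m k) := by
    refine integral_mono_of_nonneg ?_ (hGi.const_mul _) ?_
    · filter_upwards [mu_pos_ae] with p hp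
      have hT : 0 < TT p := by
        unfold TT
        positivity
      have h1 : 0 ≤ p.1 ^ (b - 1) := Real.rpow_nonneg hp.le _
      have h2 : 0 ≤ vpi κ (TT p) := (vpi_pos hT).le
      show 0 ≤ wt b κ p * TT p * psi K p.1 (xx θ R C p) ^ 2
      unfold wt
      positivity
    · filter_upwards [mu_pos_ae] with p hp
      obtain ⟨S, z, w⟩ := p
      have hS : 0 < S := hp
      have hT : 0 < TT ((S, z, w) : ℝ × E m × E k) := by
        unfold TT
        positivity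
      set T : ℝ := TT ((S, z, w) : ℝ × E m × E k) with hTd
      have hTe : T = S + ‖z‖ ^ 2 := rfl
      set x : E k := xx θ R C (S, z, w) with hx
      have hxe : x = θ - R z + C w := rfl
      have h1 : 0 ≤ S ^ (b - 1) := Real.rpow_nonneg hS.le _
      have h2 : 0 ≤ T ^ (-κ) := Real.rpow_nonneg hT.le _
      have hψ0 := psi_nonneg hK hS x
      have hψ1 := psi_le_one hK hS x
      have hθx : ‖θ‖ ^ 2 ≤ 2 * ‖x‖ ^ 2 + 2 * (M * (T + ‖w‖ ^ 2)) := by
        have e1 : θ = x - (C w - R z) := by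
          rw [hxe]
          abel
        have e2 : ‖θ‖ ≤ ‖x‖ + ‖C w - R z‖ := by
          nth_rewrite 1 [e1]
          exact norm_sub_le _ _
        have e3 : ‖C w - R z‖ ≤ ‖(C : E k →L[ℝ] E k)‖ * ‖w‖ + ‖R‖ * ‖z‖ :=
          (norm_sub_le _ _).trans (add_le_add ((C : E k →L[ℝ] E k).le_opNorm w) (R.le_opNorm z))
        have e4 : ‖C w - R z‖ ^ 2 ≤ M * (T + ‖w‖ ^ 2) := by
          have f1 : ‖C w - R z‖ ^ 2 ≤ (‖(C : E k →L[ℝ] E k)‖ * ‖w‖ + ‖R‖ * ‖z‖) ^ 2 :=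
            pow_le_pow_left₀ (norm_nonneg _) e3 2
          have f2 : ‖z‖ ^ 2 ≤ T := by
            rw [hTe]
            linarith
          have f3 : (‖(C : E k →L[ℝ] E k)‖ * ‖w‖ + ‖R‖ * ‖z‖) ^ 2 ≤
              2 * (‖(C : E k →L[ℝ] E k)‖ ^ 2 * ‖w‖ ^ 2) + 2 * (‖R‖ ^ 2 * ‖z‖ ^ 2) := by
            nlinarith [sq_nonneg (‖(C : E k →L[ℝ] E k)‖ * ‖w‖ - ‖R‖ * ‖z‖)]
          have f4 : ‖R‖ ^ 2 * ‖z‖ ^ 2 ≤ ‖R‖ ^ 2 * T :=
            mul_le_mul_of_nonneg_left f2 (by positivity)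
          rw [hM]
          have f5 : 0 ≤ ‖(C : E k →L[ℝ] E k)‖ ^ 2 * T := by positivity
          have f6 : 0 ≤ ‖R‖ ^ 2 * ‖w‖ ^ 2 := by positivity
          nlinarith
        have e5 : ‖θ‖ ^ 2 ≤ (‖x‖ + ‖C w - R z‖) ^ 2 := pow_le_pow_left₀ (norm_nonneg _) e2 2
        nlinarith [sq_nonneg (‖x‖ - ‖C w - R z‖)]
      have hq : (1 + ‖θ‖ ^ 2) * psi K S x ≤ D * (1 + T + ‖w‖ ^ 2) ^ 2 := by
        have g1 : ‖x‖ ^ 2 * psi K S x ≤ K * S := by
          unfold psi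
          rw [← mul_div_assoc, div_le_iff₀ (by positivity)]
          nlinarith [mul_pos hK hS, mul_pos (mul_pos hK hS) (mul_pos hK hS)]
        have g2 : S ≤ T := by
          rw [hTe]
          nlinarith [sq_nonneg ‖z‖]
        have g3 : 0 ≤ M * (T + ‖w‖ ^ 2) := by positivity
        have g4 : (1 + ‖θ‖ ^ 2) * psi K S x ≤ 1 + 2 * (K * S) + 2 * (M * (T + ‖w‖ ^ 2)) := by
          calc (1 + ‖θ‖ ^ 2) * psi K S x
              ≤ (1 + (2 * ‖x‖ ^ 2 + 2 * (M * (T + ‖w‖ ^ 2)))) * psi K S x :=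
                mul_le_mul_of_nonneg_right (by linarith) hψ0
            _ = psi K S x + 2 * (‖x‖ ^ 2 * psi K S x) + 2 * (M * (T + ‖w‖ ^ 2)) * psi K S x := by
                ring
            _ ≤ 1 + 2 * (K * S) + 2 * (M * (T + ‖w‖ ^ 2)) * 1 := by
                gcongr
            _ = _ := by ring
        have g5 : 0 ≤ ‖w‖ ^ 2 := by positivity
        set V : ℝ := 1 + T + ‖w‖ ^ 2 with hV
        have g6 : 1 ≤ V := by linarith
        have g7 : 1 + 2 * (K * S) + 2 * (M * (T + ‖w‖ ^ 2)) ≤ D * V := by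
          have k1 : K * S ≤ K * V := mul_le_mul_of_nonneg_left (by linarith) hK.le
          have k2 : M * (T + ‖w‖ ^ 2) ≤ M * V := mul_le_mul_of_nonneg_left (by linarith) hM0
          rw [hD]
          have k3 : 0 ≤ K * M * V := by positivity
          nlinarith
        have g8 : D * V ≤ D * V ^ 2 := by
          have : V ≤ V ^ 2 := by nlinarith
          exact mul_le_mul_of_nonneg_left this hD0.le
        linarith
      have hψ2 : psi K S x ^ 2 ≤ D ^ 2 / (1 + ‖θ‖ ^ 2) ^ 2 * (1 + T + ‖w‖ ^ 2) ^ 4 := by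
        have k1 : psi K S x ≤ D / (1 + ‖θ‖ ^ 2) * (1 + T + ‖w‖ ^ 2) ^ 2 := by
          rw [div_mul_eq_mul_div, le_div_iff₀ hθ]
          linarith
        calc psi K S x ^ 2 ≤ (D / (1 + ‖θ‖ ^ 2) * (1 + T + ‖w‖ ^ 2) ^ 2) ^ 2 :=
              pow_le_pow_left₀ hψ0 k1 2
          _ = _ := by
              rw [mul_pow, div_pow]
              ring
      have hwt : wt b κ ((S, z, w) : ℝ × E m × E k) * T =
          S ^ (b - 1) * T ^ (-κ) * Real.exp (-(1 / 2) * T) * Real.exp (-‖w‖ ^ 2 / 2) := by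
        have k1 : vpi κ T * T = T ^ (-κ) * Real.exp (-(1 / 2) * T) := by
          unfold vpi
          have k2 : T ^ (-κ - 1) * T = T ^ (-κ) := by
            rw [← Real.rpow_add_one hT.ne']
            congr 1
            ring
          rw [← k2, show -T / 2 = -(1 / 2) * T by ring]
          ring
        show S ^ (b - 1) * vpi κ T * Real.exp (-‖w‖ ^ 2 / 2) * T = _
        calc S ^ (b - 1) * vpi κ T * Real.exp (-‖w‖ ^ 2 / 2) * T =
              S ^ (b - 1) * (vpi κ T * T) * Real.exp (-‖w‖ ^ 2 / 2) := by ring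
          _ = _ := by
              rw [k1]
              ring
      show wt b κ ((S, z, w) : ℝ × E m × E k) * T * psi K S x ^ 2 ≤
        D ^ 2 / (1 + ‖θ‖ ^ 2) ^ 2 * (S ^ (b - 1) * T ^ (-κ) *
          Real.exp (-(1 / 2) * T) * Real.exp (-‖w‖ ^ 2 / 2) * (1 + T + ‖w‖ ^ 2) ^ 4)
      rw [hwt]
      have k0 : 0 ≤ S ^ (b - 1) * T ^ (-κ) * Real.exp (-(1 / 2) * T) *
          Real.exp (-‖w‖ ^ 2 / 2) := by positivity
      calc _ ≤ S ^ (b - 1) * T ^ (-κ) * Real.exp (-(1 / 2) * T) * Real.exp (-‖w‖ ^ 2 / 2) *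
            (D ^ 2 / (1 + ‖θ‖ ^ 2) ^ 2 * (1 + T + ‖w‖ ^ 2) ^ 4) :=
            mul_le_mul_of_nonneg_left hψ2 k0
        _ = _ := by ring
  refine hmain.trans ?_
  rw [integral_const_mul, div_mul_eq_mul_div]
  gcongr
  linarith

end Pool.Agent.L7h26.PD
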