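import Pool.Agent.L7h38.PD.Stm

set_option autoImplicit false

/-!
# Project PD: facts on `ϖ` and `Ω` (`S_OM`)
-/

open MeasureTheory Set Filter Topology

namespace Pool.Agent.L7h26.PD

open Pool.Agent.L7h38.PD

theorem vpi_pos {κ T : ℝ} (hT : 0 < T) : 0 < vpi κ T :=
  mul_pos (Real.rpow_pos_of_pos hT _) (Real.exp_pos _)

theorem vpi_deriv {κ T : ℝ} (hT : 0 < T) : HasDerivAt (vpi κ) (dvpi κ T) T := by
  have h1 : HasDerivAt (fun t : ℝ => t ^ (-κ - 1)) ((-κ - 1) * T ^ (-κ - 1 - 1)) T :=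
    Real.hasDerivAt_rpow_const (Or.inl hT.ne')
  have h2 : HasDerivAt (fun t : ℝ => Real.exp (-t / 2)) (Real.exp (-T / 2) * (-1 / 2)) T :=
    HasDerivAt.exp (((hasDerivAt_id T).neg).div_const 2)
  have h3 := h1.mul h2
  refine h3.congr_deriv ?_
  unfold dvpi vpi
  rw [Real.rpow_sub_one hT.ne' (-κ - 1)]
  field_simp
  ring

theorem vpi_cont {κ : ℝ} : ContinuousOn (vpi κ) (Ioi 0) := fun _ hT =>
  (vpi_deriv hT).continuousAt.continuousWithinAt

theorem vpi_anti {κ : ℝ} (hκ : 0 ≤ κ) {a b : ℝ} (ha : 0 < a) (hab : a ≤ b) :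
    vpi κ b ≤ vpi κ a := by
  unfold vpi
  refine mul_le_mul (Real.rpow_le_rpow_of_nonpos ha hab (by linarith)) ?_
    (Real.exp_pos _).le (Real.rpow_nonneg ha.le _)
  exact Real.exp_le_exp.2 (by linarith)

theorem vpi_meas {κ a : ℝ} (ha : 0 ≤ a) :
    AEStronglyMeasurable (vpi κ) (volume.restrict (Ioi a)) :=
  (vpi_cont.mono (Ioi_subset_Ioi ha)).aestronglyMeasurable measurableSet_Ioi

theorem exp_int (T : ℝ) : IntegrableOn (fun t : ℝ => Real.exp (-t / 2)) (Ioi T) := by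
  have := exp_neg_integrableOn_Ioi T (b := 1 / 2) (by norm_num)
  refine this.congr_fun (fun t _ => ?_) measurableSet_Ioi
  show Real.exp (-(1 / 2) * t) = Real.exp (-t / 2)
  congr 1
  ring

theorem vpi_le {κ : ℝ} (hκ : 0 ≤ κ) {T t : ℝ} (hT : 0 < T) (ht : T < t) :
    vpi κ t ≤ T ^ (-κ - 1) * Real.exp (-t / 2) := by
  unfold vpi
  exact mul_le_mul_of_nonneg_right
    (Real.rpow_le_rpow_of_nonpos hT ht.le (by linarith)) (Real.exp_pos _).le

theorem vpi_int {κ : ℝ} (hκ : 0 ≤ κ) {T : ℝ} (hT : 0 < T) : IntegrableOn (vpi κ) (Ioi T) := by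
  refine Integrable.mono' ((exp_int T).const_mul (T ^ (-κ - 1))) (vpi_meas hT.le) ?_
  refine (ae_restrict_iff' measurableSet_Ioi).2 (ae_of_all _ fun t ht => ?_)
  rw [Real.norm_eq_abs, abs_of_pos (vpi_pos (hT.trans ht))]
  exact vpi_le hκ hT ht

theorem vpi_ii {κ : ℝ} {a b : ℝ} (ha : 0 < a) (hab : a ≤ b) :
    IntervalIntegrable (vpi κ) volume a b := by
  refine ContinuousOn.intervalIntegrable (vpi_cont.mono ?_)
  rw [uIcc_of_le hab]
  exact fun t ht => ha.trans_le ht.1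

theorem om_split {κ : ℝ} (hκ : 0 ≤ κ) {a b : ℝ} (ha : 0 < a) (hb : 0 < b) :
    Om κ a = (∫ t in a..b, vpi κ t) + Om κ b :=
  (intervalIntegral.integral_interval_add_Ioi (vpi_int hκ ha) (vpi_int hκ hb)).symm

theorem om_deriv {κ : ℝ} (hκ : 0 ≤ κ) {T : ℝ} (hT : 0 < T) :
    HasDerivAt (Om κ) (-vpi κ T) T := by
  have hc : 0 < T / 2 := by positivity
  have h1 : HasDerivAt (fun u => ∫ t in (T / 2)..u, vpi κ t) (vpi κ T) T := by
    refine intervalIntegral.integral_hasDerivAt_right (vpi_ii hc (by linarith)) ?_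
      (vpi_deriv hT).continuousAt
    refine ⟨Ioi 0, Ioi_mem_nhds hT, vpi_meas le_rfl⟩
  have h2 : HasDerivAt (fun u => Om κ (T / 2) - ∫ t in (T / 2)..u, vpi κ t) (-vpi κ T) T := by
    simpa using h1.const_sub (Om κ (T / 2))
  refine h2.congr_of_eventuallyEq ?_
  filter_upwards [Ioi_mem_nhds hT] with u hu
  rw [om_split hκ hc hu]
  ring

theorem om_le {κ : ℝ} (hκ : 0 ≤ κ) {T : ℝ} (hT : 0 < T) : Om κ T ≤ 2 * vpi κ T := by
  have h1 : Om κ T ≤ ∫ t in Ioi T, T ^ (-κ - 1) * Real.exp (-t / 2) := by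
    refine setIntegral_mono_on (vpi_int hκ hT) ((exp_int T).const_mul _) measurableSet_Ioi ?_
    exact fun t ht => vpi_le hκ hT ht
  refine h1.trans (le_of_eq ?_)
  rw [integral_const_mul]
  have h2 : ∫ t in Ioi T, Real.exp (-t / 2) = 2 * Real.exp (-T / 2) := by
    have := integral_exp_mul_Ioi (a := -(1 / 2)) (by norm_num) T
    have h3 : ∀ t : ℝ, Real.exp (-t / 2) = Real.exp (-(1 / 2) * t) := fun t => by
      congr 1
      ring
    simp_rw [h3]
    rw [this]
    ring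
  rw [h2]
  unfold vpi
  ring

theorem om_nonneg {κ T : ℝ} (hT : 0 < T) : 0 ≤ Om κ T :=
  setIntegral_nonneg measurableSet_Ioi fun _ ht => (vpi_pos (hT.trans ht)).le

theorem om_pos {κ : ℝ} (hκ : 0 ≤ κ) {T : ℝ} (hT : 0 < T) : 0 < Om κ T := by
  rw [om_split hκ hT (b := T + 1) (by linarith)]
  have h1 : 0 < ∫ t in T..(T + 1), vpi κ t := by
    refine intervalIntegral.intervalIntegral_pos_of_pos_on (vpi_ii hT (by linarith)) ?_
      (by linarith)
    exact fun t ht => vpi_pos (hT.trans ht.1)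
  have h2 := om_nonneg (κ := κ) (T := T + 1) (by linarith)
  linarith

theorem pow_exp {a t : ℝ} (ha : 0 < a) (ht : 0 < t) :
    t ^ a ≤ (4 * a) ^ a * Real.exp (t / 4) := by
  have h1 : t ≤ 4 * a * Real.exp (t / (4 * a)) := by
    have h2 := Real.add_one_le_exp (t / (4 * a))
    have h3 : t = 4 * a * (t / (4 * a)) := by field_simp
    calc t = 4 * a * (t / (4 * a)) := h3
      _ ≤ 4 * a * Real.exp (t / (4 * a)) :=
          mul_le_mul_of_nonneg_left (by linarith) (by positivity)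
  calc t ^ a ≤ (4 * a * Real.exp (t / (4 * a))) ^ a := Real.rpow_le_rpow ht.le h1 ha.le
    _ = (4 * a) ^ a * Real.exp (t / 4) := by
        rw [Real.mul_rpow (by positivity) (Real.exp_pos _).le, ← Real.exp_mul]
        congr 2
        field_simp

theorem om_le' {κ η : ℝ} (hκ : 0 ≤ κ) (hη : κ < η) {T : ℝ} (hT : 0 < T) :
    Om κ T ≤ (4 * (η - κ)) ^ (η - κ) / η * (T ^ (-η) * Real.exp (-(1 / 4) * T)) := by
  have ha : 0 < η - κ := by linarith
  have hη0 : 0 < η := by linarith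
  set C : ℝ := (4 * (η - κ)) ^ (η - κ) with hC
  have hC0 : 0 < C := Real.rpow_pos_of_pos (by positivity) _
  have h0 : ∀ t ∈ Ioi T, vpi κ t ≤ C * Real.exp (-(1 / 4) * T) * t ^ (-η - 1) := by
    intro t ht
    have ht0 : 0 < t := hT.trans ht
    have h1 := pow_exp ha ht0
    have h2 : t ^ (-κ - 1) = t ^ (-η - 1) * t ^ (η - κ) := by
      rw [← Real.rpow_add ht0]
      congr 1
      ring
    have h3 : Real.exp (-t / 2) = Real.exp (-(t / 4)) * Real.exp (-(t / 4)) := by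
      rw [← Real.exp_add]
      congr 1
      ring
    have h4 : Real.exp (-(t / 4)) ≤ Real.exp (-(1 / 4) * T) := by
      refine Real.exp_le_exp.2 ?_
      have : T < t := ht
      linarith
    have h5 : t ^ (η - κ) * Real.exp (-(t / 4)) ≤ C := by
      calc t ^ (η - κ) * Real.exp (-(t / 4)) ≤ C * Real.exp (t / 4) * Real.exp (-(t / 4)) :=
            mul_le_mul_of_nonneg_right h1 (Real.exp_pos _).le
        _ = C := by rw [mul_assoc, ← Real.exp_add, add_neg_cancel, Real.exp_zero, mul_one]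
    unfold vpi
    rw [h2, h3]
    have h6 : 0 < t ^ (-η - 1) := Real.rpow_pos_of_pos ht0 _
    calc t ^ (-η - 1) * t ^ (η - κ) * (Real.exp (-(t / 4)) * Real.exp (-(t / 4))) =
          t ^ (-η - 1) * ((t ^ (η - κ) * Real.exp (-(t / 4))) * Real.exp (-(t / 4))) := by ring
      _ ≤ t ^ (-η - 1) * (C * Real.exp (-(1 / 4) * T)) :=
          mul_le_mul_of_nonneg_left (mul_le_mul h5 h4 (Real.exp_pos _).le hC0.le) h6.le
      _ = C * Real.exp (-(1 / 4) * T) * t ^ (-η - 1) := by ring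
  have h1 : Om κ T ≤ ∫ t in Ioi T, C * Real.exp (-(1 / 4) * T) * t ^ (-η - 1) :=
    setIntegral_mono_on (vpi_int hκ hT)
      ((integrableOn_Ioi_rpow_of_lt (by linarith) hT).const_mul _) measurableSet_Ioi h0
  refine h1.trans (le_of_eq ?_)
  rw [integral_const_mul, integral_Ioi_rpow_of_lt (by linarith) hT]
  rw [show -η - 1 + 1 = -η by ring]
  field_simp

/-- **S_OM.** -/
theorem s_OM : S_OM := by
  intro κ hκ
  refine ⟨fun T hT => ⟨vpi_pos hT, vpi_deriv hT, vpi_int hκ hT, om_deriv hκ hT, om_pos hκ hT,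
    om_le hκ hT⟩, fun a b ha hab => ?_, fun η hη => ?_⟩
  · have hb : 0 < b := ha.trans_le hab
    have h1 := om_split hκ ha hb
    have h2 : 0 ≤ ∫ t in a..b, vpi κ t :=
      intervalIntegral.integral_nonneg hab fun t ht => (vpi_pos (ha.trans_le ht.1)).le
    have h3 : ∫ t in a..b, vpi κ t ≤ ∫ _t in a..b, vpi κ a := by
      refine intervalIntegral.integral_mono_on hab (vpi_ii ha hab) (by simp) fun t ht => ?_
      exact vpi_anti hκ ha ht.1
    rw [intervalIntegral.integral_const, smul_eq_mul] at h3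
    exact ⟨vpi_anti hκ ha hab, by linarith, by linarith⟩
  · have hη0 : 0 < η := by linarith
    have ha : 0 < η - κ := by linarith
    refine ⟨(4 * (η - κ)) ^ (η - κ) / η, ?_, fun T hT => om_le' hκ hη hT⟩
    exact div_pos (Real.rpow_pos_of_pos (by positivity) _) hη0

end Pool.Agent.L7h26.PD
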